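import Pool.Agent.Helper24.HW.Stmts

/-! Module MALL of the project HW: identification of all vertices with the same label, for the
labels of a finite set. -/

set_option autoImplicit false

namespace Pool.Agent.Helper88.HW

open Equiv Equiv.Perm Pool.Agent.Helper24.HW Pool.Agent.Helper24.HWPub Pool.Agent.Helper98.Gn

/-- a label all of whose darts are in one cycle has one vertex -/
theorem pt_one {C : Type} (M : LM C) (A : C) (x : M.D) (hx : M.ℓ x = A)
    (hs : ∀ y, M.ℓ y = A → SameCycle M.σ x y) : M.pt A = 1 := by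
  have : {O : Quotient (SameCycle.setoid M.σ) | ∃ x, M.ℓ x = A ∧ Quotient.mk _ x = O} =
      {Quotient.mk (SameCycle.setoid M.σ) x} := by
    ext O
    constructor
    · rintro ⟨y, hy, rfl⟩
      exact (Quotient.sound (s := SameCycle.setoid M.σ) (hs y hy)).symm
    · rintro rfl
      exact ⟨x, hx, rfl⟩
  unfold LM.pt
  rw [this, Set.ncard_singleton]

theorem mall_aux (h1 : ST_M1) (C : Type) [DecidableEq C] (S : Finset C) (n : ℕ) :
    ∀ (M : LM C), ∑ A ∈ S, M.pt A = n → (∀ A ∈ S, ∃ x, M.ℓ x = A) →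
    ∃ (τ : Perm M.D) (h : ∀ x, M.ℓ (τ x) = M.ℓ x),
    (∀ x, M.ℓ x ∉ S → τ x = M.σ x) ∧ (∀ x y, M.ℓ x = M.ℓ y → M.ℓ x ∈ S → SameCycle τ x y) ∧
    M.chi ≤ (M.re τ h).chi + 2 * ∑ A ∈ S, ((M.pt A : ℤ) - 1) ∧
    (∀ A, A ∉ S → (M.re τ h).pt A = M.pt A) ∧ ∀ A ∈ S, (M.re τ h).pt A = 1 := by
  induction n with
  | zero =>
    intro M hn hS
    refine ⟨M.σ, M.hℓ, fun _ _ => rfl, ?_, ?_, fun _ _ => rfl, ?_⟩
    · intro x y hxy hx
      exfalso
      have h0 : M.pt (M.ℓ x) = 0 := by
        have := Finset.sum_eq_zero_iff.mp hn (M.ℓ x) hx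
        exact this
      unfold LM.pt at h0
      have hf := (Set.ncard_eq_zero (Set.toFinite _)).mp h0
      have hm : (Quotient.mk (SameCycle.setoid M.σ) x) ∈
          {O : Quotient (SameCycle.setoid M.σ) | ∃ z, M.ℓ z = M.ℓ x ∧ Quotient.mk _ z = O} :=
        ⟨x, rfl, rfl⟩
      rw [hf] at hm
      exact hm
    · have hS0 : S = ∅ := by
        by_contra hne
        obtain ⟨A, hA⟩ := Finset.nonempty_iff_ne_empty.mpr hne
        obtain ⟨x, hx⟩ := hS A hA
        have h0 : M.pt A = 0 := Finset.sum_eq_zero_iff.mp hn A hA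
        unfold LM.pt at h0
        have hf := (Set.ncard_eq_zero (Set.toFinite _)).mp h0
        have hm : (Quotient.mk (SameCycle.setoid M.σ) x) ∈
            {O : Quotient (SameCycle.setoid M.σ) | ∃ z, M.ℓ z = A ∧ Quotient.mk _ z = O} :=
          ⟨x, hx, rfl⟩
        rw [hf] at hm
        exact hm
      subst hS0
      simp only [Finset.sum_empty, mul_zero, add_zero]
      exact le_rfl
    · intro A hA
      exfalso
      obtain ⟨x, hx⟩ := hS A hA
      have h0 : M.pt A = 0 := Finset.sum_eq_zero_iff.mp hn A hA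
      unfold LM.pt at h0
      have hf := (Set.ncard_eq_zero (Set.toFinite _)).mp h0
      have hm : (Quotient.mk (SameCycle.setoid M.σ) x) ∈
          {O : Quotient (SameCycle.setoid M.σ) | ∃ z, M.ℓ z = A ∧ Quotient.mk _ z = O} :=
        ⟨x, hx, rfl⟩
      rw [hf] at hm
      exact hm
  | succ n ih =>
    intro M hn hS
    by_cases hc : ∃ a b : M.D, M.ℓ a = M.ℓ b ∧ M.ℓ a ∈ S ∧ ¬ SameCycle M.σ a b
    · obtain ⟨a, b, hab, haS, hns⟩ := hc
      obtain ⟨h, m1, m2, m3, m4⟩ := h1 C M a b hab hns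
      have hsum : ∑ A ∈ S, (M.re (M.σ * swap a b) h).pt A + 1 = ∑ A ∈ S, M.pt A := by
        have e1 : ∑ A ∈ S, M.pt A = ∑ A ∈ S, ((M.re (M.σ * swap a b) h).pt A +
            (if A = M.ℓ a then 1 else 0)) := Finset.sum_congr rfl (fun A _ => (m2 A).symm)
        rw [e1, Finset.sum_add_distrib, Finset.sum_ite_eq' S (M.ℓ a) (fun _ => 1), if_pos haS]
      obtain ⟨τ, h', i1, i2, i3, i4, i5⟩ := ih (M.re (M.σ * swap a b) h) (by omega) hS
      refine ⟨τ, h', ?_, i2, ?_, ?_, i5⟩
      · intro x hx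
        have hx1 : M.ℓ x ≠ M.ℓ a := fun e => hx (e ▸ haS)
        rw [← m3 x hx1]
        exact i1 x hx
      · have e2 : ∑ A ∈ S, ((M.pt A : ℤ) - 1) =
            ∑ A ∈ S, (((M.re (M.σ * swap a b) h).pt A : ℤ) - 1) + 1 := by
          rw [Finset.sum_sub_distrib, Finset.sum_sub_distrib]
          have : ((∑ A ∈ S, M.pt A : ℕ) : ℤ) =
              ((∑ A ∈ S, (M.re (M.σ * swap a b) h).pt A : ℕ) : ℤ) + 1 := by
            rw [← hsum]
            push_cast
            ring
          push_cast at this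
          linarith
        have e3 : ((M.re (M.σ * swap a b) h).re τ h').chi = (M.re τ h').chi := rfl
        rw [e3] at i3
        rw [e2]
        linarith
      · intro A hA
        have hA1 : A ≠ M.ℓ a := fun e => hA (e ▸ haS)
        have e4 := m2 A
        rw [if_neg hA1, add_zero] at e4
        rw [← e4]
        exact i4 A hA
    · push Not at hc
      have h1S : ∀ A ∈ S, M.pt A = 1 := by
        intro A hA
        obtain ⟨x, hx⟩ := hS A hA
        exact pt_one M A x hx (fun y hy => hc x y (hx.trans hy.symm) (hx ▸ hA))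
      refine ⟨M.σ, M.hℓ, fun _ _ => rfl, hc, ?_, fun _ _ => rfl, h1S⟩
      have e5 : ∑ A ∈ S, ((M.pt A : ℤ) - 1) = 0 :=
        Finset.sum_eq_zero (fun A hA => by rw [h1S A hA]; simp)
      rw [e5, mul_zero, add_zero]
      exact le_rfl

theorem MALL (h1 : ST_M1) : ST_MALL := by
  intro C _ M S hS
  exact mall_aux h1 C S _ M rfl hS

end Pool.Agent.Helper88.HW
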