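import Pool.Agent.Helper24.HW.Stmts

/-! Module ADE of the project HW: one new edge between two labels. -/

set_option autoImplicit false

namespace Pool.Agent.Helper88.HW

open Equiv Equiv.Perm Pool.Agent.Helper24.HW Pool.Agent.Helper24.HWPub Pool.Agent.Helper98.Gn

theorem ADE (h1 : ST_UM) (h2 : ST_PCS) (h3 : ST_M1) : ST_ADE := by
  classical
  intro C M a b hab
  obtain ⟨-, -, hedg⟩ := h2 C (M.ℓ a) (M.ℓ b)
  obtain ⟨hc, hcn, hpt⟩ := hedg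
  have h0 : M.ℓ a = (LM.edg (M.ℓ a) (M.ℓ b)).ℓ (0 : Fin 2) := rfl
  obtain ⟨u1, u2, u3, u4⟩ := h1 C M (LM.edg (M.ℓ a) (M.ℓ b)) a (0 : Fin 2) h0
  set M1 : LM C := M.um (LM.edg (M.ℓ a) (M.ℓ b)) a (0 : Fin 2) h0 with hM1
  let x1 : M1.D := (Sum.inr (1 : Fin 2) : M.D ⊕ Fin 2)
  let x0 : M1.D := (Sum.inr (0 : Fin 2) : M.D ⊕ Fin 2)
  let y1 : M1.D := (Sum.inl b : M.D ⊕ Fin 2)
  have hl1 : M1.ℓ x1 = M1.ℓ y1 := rfl
  have hfix : M1.σ x1 = x1 := by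
    change (Perm.sumCongr M.σ (1 : Perm (Fin 2)) *
      swap (Sum.inl a : M.D ⊕ Fin 2) (Sum.inr (0 : Fin 2))) (Sum.inr (1 : Fin 2)) =
        Sum.inr (1 : Fin 2)
    rw [Perm.mul_apply, swap_apply_of_ne_of_ne (by simp) (by simp)]
    simp
  have hns : ¬ SameCycle M1.σ x1 y1 := by
    intro hs
    have := hs.eq_of_left hfix
    have h' : (Sum.inr (1 : Fin 2) : M.D ⊕ Fin 2) = Sum.inl b := this
    simp at h'
  obtain ⟨h, m1, m2, m3, m4⟩ := h3 C M1 x1 y1 hl1 hns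
  refine ⟨M1.re (M1.σ * swap x1 y1) h, ?_, ⟨?_, ?_, ?_, ?_⟩, ?_, ?_⟩
  · have : M1.chi = M.chi := by linarith
    linarith
  · intro A
    have e1 := m2 A
    have e2 := u2 A
    rw [hpt A] at e2
    have e3 : M1.ℓ x1 = M.ℓ b := rfl
    rw [e3] at e1
    omega
  · intro A B hA
    exact u3 A B (Or.inl hA)
  · intro hM
    exact m4 (u4 hM hcn)
  · intro _
    exact ⟨y1⟩
  · exact ⟨x0, rfl, rfl⟩
  · exact ⟨x1, rfl, rfl⟩

end Pool.Agent.Helper88.HW
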